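import Mathlib
import Pool.Agent.Lib.MP_50d2fe_co.Body
import Pool.Agent.Lib.MP_50d2fe_co.Cover
import Pool.Agent.Lib.MP_50d2fe_co.Dual
import Pool.Agent.Lib.MP_50d2fe_co.Edge
import Pool.Agent.Lib.MP_50d2fe_co.Facet
import Pool.Agent.Lib.MP_50d2fe_co.Final
import Pool.Agent.Lib.MP_50d2fe_co.First
import Pool.Agent.Lib.MP_50d2fe_co.Layer
import Pool.Agent.Lib.MP_50d2fe_co.MainP
import Pool.Agent.Lib.MP_50d2fe_co.Match
import Pool.Agent.Lib.MP_50d2fe_co.Norm
import Pool.Agent.Lib.MP_50d2fe_co.Plane
import Pool.Agent.Lib.MP_50d2fe_co.Side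
import Pool.Agent.Lib.MP_50d2fe_co.Tri

/-!
# MP_50d2fe_co: convex bodies in three-space touched by 25 translates
-/

set_option autoImplicit false

namespace Pool.Agent.Results.MP_50d2fe_co.TwentyFive

/-- Euclidean three-space. -/
abbrev E3 : Type := EuclideanSpace ℝ (Fin 3)

/-- A convex body: a compact convex set with nonempty interior. -/
structure IsConvexBody (C : Set E3) : Prop where
  isCompact : IsCompact C
  convex : Convex ℝ C
  interior_nonempty : (interior C).Nonempty

/-- The translate `C + t`. -/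
def translate (C : Set E3) (t : E3) : Set E3 := {x | ∃ c ∈ C, x = c + t}

/-- The interiors are disjoint. -/
def Nonoverlapping (A B : Set E3) : Prop := Disjoint (interior A) (interior B)

/-- `C + t` touches `C`. -/
def Touches (C : Set E3) (t : E3) : Prop :=
  t ≠ 0 ∧ (C ∩ translate C t).Nonempty ∧ Nonoverlapping C (translate C t)

/-- `C` can be touched by `k` nonoverlapping translates. -/
def CanBeTouchedBy (C : Set E3) (k : ℕ) : Prop :=
  ∃ t : Fin k → E3, (∀ i, Touches C (t i)) ∧
    ∀ i j, i ≠ j → Nonoverlapping (translate C (t i)) (translate C (t j))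

/-- The unit cube. -/
def cube : Set E3 := {x | ∀ i, 0 ≤ x i ∧ x i ≤ 1}

/-- The image of the cube `[0,1]³` under an invertible affine map. -/
def IsParallelepiped (C : Set E3) : Prop := ∃ A : E3 ≃ᵃ[ℝ] E3, C = A '' cube

theorem translate_eq (C : Set E3) (t : E3) : translate C t = (fun x => x + t) '' C := by
  ext x
  constructor
  · rintro ⟨c, hc, rfl⟩
    exact ⟨c, hc, rfl⟩
  · rintro ⟨c, hc, rfl⟩
    exact ⟨c, hc, rfl⟩

/-- The description of a parallelepiped by a vertex and three edge vectors. -/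
theorem isParallelepiped_of_vectors {C : Set E3} {p : E3} {u : Fin 3 → E3}
    (hu : LinearIndependent ℝ u)
    (hC : C = {x | ∃ t : Fin 3 → ℝ, (∀ k, t k ∈ Set.Icc (0:ℝ) 1) ∧ x = p + ∑ k, t k • u k}) :
    IsParallelepiped C := by
  let b : Module.Basis (Fin 3) ℝ E3 :=
    basisOfLinearIndependentOfCardEqFinrank hu (by simp)
  have hb : ∀ i, b i = u i := fun i => by
    simp [b]
  let L : E3 ≃ₗ[ℝ] E3 := (EuclideanSpace.equiv (Fin 3) ℝ).toLinearEquiv.trans b.equivFun.symm
  refine ⟨L.toAffineEquiv.trans (AffineEquiv.constVAdd ℝ E3 p), ?_⟩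
  have hL : ∀ x : E3, L x = ∑ k, x k • u k := by
    intro x
    change b.equivFun.symm _ = _
    rw [Module.Basis.equivFun_symm_apply]
    refine Finset.sum_congr rfl fun k _ => ?_
    rw [hb]
    rfl
  have hA : ∀ x : E3, (L.toAffineEquiv.trans (AffineEquiv.constVAdd ℝ E3 p)) x =
      p + ∑ k, x k • u k := by
    intro x
    rw [← hL]
    rfl
  rw [hC]
  ext x
  constructor
  · rintro ⟨t, ht, rfl⟩
    refine ⟨(EuclideanSpace.equiv (Fin 3) ℝ).symm t, fun i => ht i, ?_⟩
    rw [hA]
    rfl
  · rintro ⟨y, hy, rfl⟩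
    exact ⟨fun i => y i, fun i => hy i, hA y⟩

/-- L. Fejes Tóth's question, with the definitions of the question: a convex body in three-space
which can be touched by `k ≥ 25` nonoverlapping translates is a parallelepiped. -/
theorem result (C : Set E3) (hC : IsConvexBody C) (k : ℕ) (hk : 25 ≤ k)
    (h : CanBeTouchedBy C k) : IsParallelepiped C := by
  obtain ⟨t, ht, hd⟩ := h
  have hA : MP50d2fe.SpecCoverA := MP50d2fe.specCoverA MP50d2fe.specMatch
  have hB : MP50d2fe.SpecCoverB := MP50d2fe.specCoverB MP50d2fe.specMatch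
  have hCC : MP50d2fe.SpecCoverC := MP50d2fe.specCoverC MP50d2fe.specMatch
  have hD : MP50d2fe.SpecDual := MP50d2fe.specDual hA
  have hH : MP50d2fe.SpecHull := MP50d2fe.specHull hD
  have hS : MP50d2fe.SpecSide :=
    MP50d2fe.specSide (MP50d2fe.specExpo hH hD) (MP50d2fe.specEdge hA hB)
  have hM : MP50d2fe.SpecMain :=
    MP50d2fe.specMainP (MP50d2fe.specFacet hD)
      (MP50d2fe.specPlane MP50d2fe.specFirst hS hH) (MP50d2fe.specLayer hA hCC) MP50d2fe.specTri
  obtain ⟨p, u, hu, hCu⟩ := MP50d2fe.final (MP50d2fe.specNorm hM) MP50d2fe.specBody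
    MP50d2fe.specDiff C hC.isCompact hC.convex hC.interior_nonempty
    (fun i => t (Fin.castLE hk i))
    (fun i => by
      have := (ht (Fin.castLE hk i)).2.1
      rw [translate_eq, Set.inter_comm] at this
      exact this)
    (fun i => by
      have := (ht (Fin.castLE hk i)).2.2
      rw [Nonoverlapping, translate_eq] at this
      exact this.symm)
    (fun i j hij => by
      have := hd (Fin.castLE hk i) (Fin.castLE hk j)
        (fun h => hij (Fin.castLE_injective hk h))
      rw [Nonoverlapping, translate_eq, translate_eq] at this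
      exact this)
  exact isParallelepiped_of_vectors hu hCu

end Pool.Agent.Results.MP_50d2fe_co.TwentyFive
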